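import Pool.Agent.H247.SD.Stm

/-!
# CC: chains between chain equivalent points can be taken in the chain recurrent set
-/

set_option autoImplicit false

open scoped Topology
open Filter Set Metric

universe u

namespace Pool.Agent.H895.SD

open Pool.Agent.R774.OS (CR Ch mem_CR near_CR perturb)
open Pool.Agent.Q182.MC (ChainTo cls R chainTo_iff)
open Pool.Agent.H247.SD

section

variable {X : Type u} [MetricSpace X] [CompactSpace X] {F : X → X}

omit [CompactSpace X] in
/-- chains as sequences -/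
theorem seq_of {ε : ℝ} {a b : X} (h : Relation.TransGen (R F univ ε) a b) :
    ∃ (k : ℕ) (x : ℕ → X), 1 ≤ k ∧ x 0 = a ∧ x k = b ∧ ∀ i < k, dist (F (x i)) (x (i + 1)) < ε := by
  induction h with
  | single h =>
    refine ⟨1, fun i => if i = 0 then a else _, le_rfl, if_pos rfl, if_neg one_ne_zero, fun i hi => ?_⟩
    have : i = 0 := by omega
    subst this
    beta_reduce
    rw [if_pos rfl, if_neg (by omega)]
    exact h.2.2
  | tail _ h ih =>
    obtain ⟨k, x, hk, h0, h1, h2⟩ := ih
    rename_i u v _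
    refine ⟨k + 1, fun i => if i ≤ k then x i else v, by omega, ?_, if_neg (by omega),
      fun i hi => ?_⟩
    · beta_reduce
      rw [if_pos (Nat.zero_le k), h0]
    · show dist (F (if i ≤ k then x i else v)) (if i + 1 ≤ k then x (i + 1) else v) < ε
      rw [if_pos (show i ≤ k by omega)]
      by_cases hik : i + 1 ≤ k
      · rw [if_pos hik]
        exact h2 i (by omega)
      · rw [if_neg hik]
        have : i = k := by omega
        rw [this, h1]
        exact h.2.2

/-- closed pseudo-orbits through two chain equivalent points -/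
theorem loop {a b : X} (h1 : ChainTo F univ a b) (h2 : ChainTo F univ b a) {ε : ℝ} (hε : 0 < ε) :
    ∃ (m : ℕ) (Y : ℕ → X) (k : ℕ), 1 ≤ m ∧ (∀ j, Y (j + m) = Y j) ∧
      (∀ j, dist (F (Y j)) (Y (j + 1)) < ε) ∧ Y 0 = a ∧ Y k = b := by
  obtain ⟨k, x, hk, hx0, hxk, hx⟩ := seq_of (chainTo_iff.1 h1 ε hε)
  obtain ⟨l, y, hl, hy0, hyl, hy⟩ := seq_of (chainTo_iff.1 h2 ε hε)
  obtain ⟨z, hz⟩ : ∃ z : ℕ → X, z = fun i => if i ≤ k then x i else y (i - k) := ⟨_, rfl⟩
  have hz1 : ∀ i, i ≤ k → z i = x i := fun i hi => by rw [hz]; exact if_pos hi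
  have hz2 : ∀ i, z (k + i) = y i := fun i => by
    rw [hz]
    show (if k + i ≤ k then x (k + i) else y (k + i - k)) = y i
    split_ifs with h
    · have : i = 0 := by omega
      subst this
      rw [Nat.add_zero, hxk, hy0]
    · rw [Nat.add_sub_cancel_left]
  have hz0 : z 0 = a := by rw [hz1 0 (Nat.zero_le _), hx0]
  have hzm : z (k + l) = a := by rw [hz2, hyl]
  have hzk : z k = b := by rw [hz1 k le_rfl, hxk]
  have hstep : ∀ i < k + l, dist (F (z i)) (z (i + 1)) < ε := by
    intro i hi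
    by_cases hik : i + 1 ≤ k
    · rw [hz1 i (by omega), hz1 (i + 1) hik]
      exact hx i (by omega)
    · obtain ⟨r, rfl⟩ := Nat.exists_eq_add_of_le (show k ≤ i by omega)
      rw [Nat.add_assoc, hz2, hz2]
      exact hy r (by omega)
  refine ⟨k + l, fun j => z (j % (k + l)), k, by omega, fun j => by simp, fun j => ?_, by simpa using hz0,
    ?_⟩
  · have hlt : j % (k + l) < k + l := Nat.mod_lt _ (by omega)
    show dist (F (z (j % (k + l)))) (z ((j + 1) % (k + l))) < ε
    have e : z ((j + 1) % (k + l)) = z (j % (k + l) + 1) := by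
      rcases Nat.lt_or_ge (j % (k + l) + 1) (k + l) with h3 | h3
      · have : (j + 1) % (k + l) = j % (k + l) + 1 := by
          rw [Nat.add_mod, Nat.mod_eq_of_lt (a := 1) (by omega), Nat.mod_eq_of_lt h3]
        rw [this]
      · have h4 : j % (k + l) + 1 = k + l := by omega
        have : (j + 1) % (k + l) = 0 := by
          have h5 : j + 1 = (k + l) * (j / (k + l) + 1) := by
            have := Nat.div_add_mod j (k + l)
            rw [Nat.mul_add, mul_one]
            omega
          rw [h5, Nat.mul_mod_right]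
        rw [this, h4, hz0, hzm]
    rw [e]
    exact hstep _ hlt
  · show z (k % (k + l)) = b
    rw [Nat.mod_eq_of_lt (by omega), hzk]

omit [CompactSpace X] in
theorem ch_of_loop {m : ℕ} {Y : ℕ → X} {ε : ℝ} (hm : 1 ≤ m) (h1 : ∀ j, Y (j + m) = Y j)
    (h2 : ∀ j, dist (F (Y j)) (Y (j + 1)) < ε) (j : ℕ) : Ch F ε (Y j) := by
  refine ⟨m, fun i => Y (j + i), hm, rfl, fun i => ?_, fun i => h2 (j + i)⟩
  show Y (j + (i + m)) = Y (j + i)
  rw [← Nat.add_assoc, h1]

end

theorem main : S_CC.{u} := by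
  intro X _ _ G a b hb δ hδ
  classical
  obtain ⟨hab, hba⟩ := hb
  have hG : Continuous (G : X → X) := G.continuous
  have haC : a ∈ CR (G : X → X) := by
    rw [mem_CR]
    intro ε hε
    obtain ⟨m, Y, k, hm, h1, h2, h3, h4⟩ := loop hab hba hε
    rw [← h3]
    exact ch_of_loop hm h1 h2 0
  have hbC : b ∈ CR (G : X → X) := by
    rw [mem_CR]
    intro ε hε
    obtain ⟨m, Y, k, hm, h1, h2, h3, h4⟩ := loop hab hba hε
    rw [← h4]
    exact ch_of_loop hm h1 h2 k
  obtain ⟨η, hη, hp⟩ := perturb hG hδ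
  obtain ⟨d, hd, hn⟩ := near_CR hG hη
  obtain ⟨m, Y, k, hm, h1, h2, h3, h4⟩ := loop hab hba (lt_min hd hη)
  have hY : ∀ j, Ch (G : X → X) d (Y j) := fun j =>
    (ch_of_loop hm h1 h2 j).mono (min_le_left _ _)
  have hex : ∀ w : X, ∃ c : X, (Ch (G : X → X) d w → c ∈ CR (G : X → X) ∧ dist w c < η) ∧
      (w = a → c = a) ∧ (w = b → c = b) := by
    intro w
    by_cases hwa : w = a
    · refine ⟨w, fun _ => ⟨hwa ▸ haC, by rw [dist_self]; exact hη⟩, fun h => h, fun h => h⟩
    · by_cases hwb : w = b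
      · exact ⟨w, fun _ => ⟨hwb ▸ hbC, by rw [dist_self]; exact hη⟩, fun h => h, fun h => h⟩
      · by_cases hw : Ch (G : X → X) d w
        · obtain ⟨c, hc, hc2⟩ := hn w hw
          exact ⟨c, fun _ => ⟨hc, hc2⟩, fun h => absurd h hwa, fun h => absurd h hwb⟩
        · exact ⟨w, fun h => absurd h hw, fun h => absurd h hwa, fun h => absurd h hwb⟩
  choose φ hφ1 hφ2 hφ3 using hex
  refine ⟨m, fun j => φ (Y j), k, hm, fun j => ?_, fun j => (hφ1 _ (hY j)).1, ?_, ?_, ?_⟩
  · show φ (Y (j + m)) = φ (Y j)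
    rw [h1]
  · exact hp Y (fun j => φ (Y j)) (fun j => (hφ1 _ (hY j)).2)
      fun j => (h2 j).trans_le (min_le_right _ _)
  · exact hφ2 _ h3
  · exact hφ3 _ h4

end Pool.Agent.H895.SD
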